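import Pool.Agent.TH526.ZL.B

/-!
# MP_d83ecd_ag: Zilber-Pink for almost all scalings of projective sets of any dimension in products
of modular curves of arbitrary level

The Shimura variety `Y(1)^n` is identified with `ℂ^n` by the elliptic modular function
`jj = j = E₄³ / Δ`. A product `Y = Y_1 × … × Y_n` of modular curves of any levels is finite over it,
special subvarieties of `Y` lie over special subvarieties of `Y(1)^n`, and atypical intersections in
`Y` give atypical intersections of the images.

Let `K ⊂ ℂ` be a countable field and let `s_i`, `i = 1, …, n`, be regular functions on the `Y_i`,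
that is, functions which are integral over `K[j]`: `R_i (s_i, j) = 0` with a polynomial `R_i` over
`K`, monic in the first variable (`j` itself has `R = S - J`; for the `λ`-invariant, level two, one
can take `R = (1 - S + S²)³ - 2⁻⁸ J S² (1 - S)²`).

Let `B ⊆ P^N` be a complex projective algebraic set, defined by forms `G k`, and let
`f_i = A_i / B_i` be quotients of forms of the same degree `d_i`, all with coefficients in `K`. For
a vector `c` of positive integers let `V_c ⊆ Y` be the set of all `(P_1, …, P_n)` such that for some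
`y ∈ B` we have `c_i s_i (P_i) = f_i (y)` for all `i`, and let `X_c ⊆ Y(1)^n` be its image,
`X_c = {x | ∃ y ∈ B, ∃ s, ∀ i, R_i (s_i, x_i) = 0, c_i B_i (y) s_i = A_i (y)}` (`scaledImage`).

Suppose that the divisors of the `f_i` are in general position: no point of `B` lies on `m + 1` of
them (`hpos`; for `B` of dimension `m` this is the case in general). Nothing else is assumed.

The special subvarieties are those of `Y(1)^n`; more generally their constant coordinates may be
isogenous to an element of a given finite set `Γ ⊂ K`, or integral over `ℤ[Γ]`.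

There is a number `D` such that for all `c` which are spread out above `D` the set `X_c` has no
atypical intersection with a special subvariety `Z`: every irreducible closed subset `A` of
`X_c ∩ Z` satisfies `dim A ≤ dim Z + m - n`; even every point of `X_c ∩ Z` has transcendence degree
at most `dim Z + m - n` over `K`. This applies to a positive proportion of all vectors `c`, and, for
given exponents `a l i`, independent modulo squares, to almost all members of the family
`c_i = ∏_l (k + l)^(a l i)`, `k = 1, 2, 3, …`: the number of exceptions `k ≤ H` is at most a power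
of `log H`.

(For `R_i = S - J`, that is for level one and `s_i = j`, a result of this kind is contained in the
starting files, `ScaledImages`.)
-/

namespace Pool.Agent.Results.MP_d83ecd_ag.AnyLevelScaledImages

open H294ZP UpperHalfPlane MvPolynomial Pool.Agent.W282.ZP

/-- A special subvariety of `Y(1)^n = ℂ^n` of dimension `r` (with more constants allowed): a map
`cls` from the coordinates onto `r` classes (`none` for constant coordinates), an integral matrix
of positive determinant for every coordinate, and a constant for every coordinate, which is a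
special point, isogenous to an element of `Γ`, or integral over `ℤ[Γ]`. -/
structure SpecialVariety (Γ : Finset ℂ) (n r : ℕ) where
  cls : Fin n → Option (Fin r)
  surj : ∀ l : Fin r, ∃ i, cls i = some l
  mat : Fin n → Matrix (Fin 2) (Fin 2) ℤ
  det_pos : ∀ i, 0 < (mat i).det
  const : Fin n → ℂ
  allowed : ∀ i, AllowedConst Γ (const i)

/-- The points of the special subvariety: the constant coordinates are the given constants, and the
coordinates of class `l` are `j (g_i z_l)`, with a free parameter `z_l` in the upper half plane. -/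
def SpecialVariety.locus {Γ : Finset ℂ} {n r : ℕ} (Z : SpecialVariety Γ n r) :
    Set (Fin n → ℂ) :=
  {x | ∃ z : Fin r → ℍ, ∀ i, (Z.cls i = none → x i = Z.const i) ∧
    ∀ l, Z.cls i = some l → ∃ w : ℍ,
      (w : ℂ) * (Z.mat i 1 0 * z l + Z.mat i 1 1) = Z.mat i 0 0 * z l + Z.mat i 0 1 ∧
      x i = jj w}

/-- `y` is a vector of homogeneous coordinates of a point of the projective algebraic set `B` defined
by the forms `G k`. -/
def OnB {K : Subfield ℂ} {N : ℕ} {κ : Type*} (G : κ → MvPolynomial (Fin (N + 1)) K)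
    (y : Fin (N + 1) → ℂ) : Prop :=
  y ≠ 0 ∧ ∀ k, aeval y (G k) = 0

/-- The value at `(s, x)` of a polynomial `R = ∑ r_u (J) S^u` in two variables `S` and `J`. -/
noncomputable def valueAt {K : Subfield ℂ} (R : Polynomial (Polynomial K)) (s x : ℂ) : ℂ :=
  Polynomial.eval₂ (Polynomial.aeval x : Polynomial K →ₐ[K] ℂ).toRingHom s R

/-- The subset `X_c` of `Y(1)^n`: the points `x` over which there are values `s_i` of the functions
on the factors of the product of modular curves, with `c_i s_i = A_i (y) / B_i (y)` for a point `y`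
of `B`. -/
def scaledImage {K : Subfield ℂ} {N n : ℕ} {κ : Type*} (G : κ → MvPolynomial (Fin (N + 1)) K)
    (A B : Fin n → MvPolynomial (Fin (N + 1)) K) (R : Fin n → Polynomial (Polynomial K))
    (c : Fin n → ℕ) : Set (Fin n → ℂ) :=
  {x | ∃ y, OnB G y ∧ ∃ s : Fin n → ℂ, ∀ i, valueAt (R i) (s i) (x i) = 0 ∧
    (c i : ℂ) * aeval y (B i) * s i = aeval y (A i)}

/-- `X` has no intersection of dimension larger than `r + m - n` with special subvarieties `Z` of
dimension `r`: every irreducible closed subset `A` of `X ∩ Z` has dimension at most `r + m - n`, and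
every point of `X ∩ Z` has transcendence degree at most `r + m - n` over `K`. -/
def NoAtypical (K : Subfield ℂ) (Γ : Finset ℂ) {n : ℕ} (m : ℕ) (X : Set (Fin n → ℂ)) : Prop :=
  ∀ (r : ℕ) (Z : SpecialVariety Γ n r),
    (∀ A ⊆ X ∩ Z.locus, zcl A ⊆ A → (idealOf A).IsPrime →
      zdim A + (n : Cardinal) ≤ (r : Cardinal) + (m : Cardinal)) ∧
    ∀ x ∈ X ∩ Z.locus, ∀ S : Finset (Fin n), AlgebraicIndependent K (fun i : S => x i) →
      S.card + n ≤ r + m

/-- `c` is spread out above `D`: at `L` primes `p l` larger than `D` all the `c i` have positive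
exponents `e l i`, and `e l i * e l j * e l' i * e l' j` is not a square for `l ≠ l'`, `i ≠ j`. -/
def Spread {n : ℕ} (L D : ℕ) (c : Fin n → ℕ) : Prop :=
  ∃ p : Fin L → ℕ,
    (∀ l, (p l).Prime ∧ D < p l ∧ ∀ i, 0 < (c i).factorization (p l)) ∧
    ∀ l l', l ≠ l' → ∀ i j, i ≠ j →
      ¬ IsSquare ((c i).factorization (p l) * (c j).factorization (p l) *
        ((c i).factorization (p l') * (c j).factorization (p l')))

/-- Zilber-Pink with no atypical intersections for all sufficiently spread out scalings of a
projective algebraic set mapped to a product of modular curves of any level, in particular for a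
positive proportion of all scalings, and for all but few members of natural one-parameter families.
Here `T` bounds the degrees of the equations `R i` in both variables, and
`L = n ^ 2 * (T + 1) ^ 4 + 1`. -/
theorem result {κ : Type*} (K : Subfield ℂ) [Countable K] (N n m : ℕ)
    (G : κ → MvPolynomial (Fin (N + 1)) K) (hG : ∀ k, ∃ e, (G k).IsHomogeneous e)
    (A B : Fin n → MvPolynomial (Fin (N + 1)) K) (d : Fin n → ℕ)
    (hA : ∀ i, (A i).IsHomogeneous (d i)) (hB : ∀ i, (B i).IsHomogeneous (d i))
    (hpos : ∀ I : Finset (Fin n), I.card = m + 1 → ∀ y, OnB G y →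
      ∃ i ∈ I, aeval y (A i) * aeval y (B i) ≠ 0)
    (R : Fin n → Polynomial (Polynomial K)) (hR : ∀ i, (R i).Monic)
    (T : ℕ) (hT : ∀ i u w, ((R i).coeff u).coeff w ≠ 0 → u ≤ T ∧ w ≤ T)
    (Γ : Finset ℂ) (hΓ : ∀ γ ∈ Γ, γ ∈ K) (L : ℕ) (hL : L = n * n * (T + 1) ^ 4 + 1) :
    ∃ D : ℕ,
      (∀ c : Fin n → ℕ, Spread L D c → NoAtypical K Γ m (scaledImage G A B R c)) ∧
      (∃ δ : ℝ, 0 < δ ∧ ∃ H₀ : ℕ, ∀ H : ℕ, H₀ ≤ H → δ * (H : ℝ) ^ n ≤
        (Set.ncard {c : Fin n → ℕ | (∀ i, 1 ≤ c i ∧ c i ≤ H) ∧
          NoAtypical K Γ m (scaledImage G A B R c)} : ℝ)) ∧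
      ∀ a : Fin L → Fin n → ℕ, (∀ l i, 0 < a l i) →
        (∀ l l', l ≠ l' → ∀ i j, i ≠ j → ¬ IsSquare (a l i * a l j * (a l' i * a l' j))) →
        ∀ H : ℕ, Set.ncard {k : ℕ | 1 ≤ k ∧ k ≤ H ∧
          ¬ NoAtypical K Γ m (scaledImage G A B R (fun i => ∏ l : Fin L, (k + (l : ℕ)) ^ a l i))} ≤
          L * (Nat.log 2 (H + L) + 1) ^ (D + L + 1) := by
  classical
  subst hL
  obtain ⟨D, hD⟩ := Pool.Agent.TH526.ZL.mainRK K (m := m) G hG A B d hA hB
    (by
      intro I hI y hyG hyI
      by_contra hy0
      obtain ⟨i, hi, h1⟩ := hpos I hI y ⟨hy0, hyG⟩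
      exact h1 (hyI i hi)) R hR T hT Γ hΓ
  have h1 : ∀ c : Fin n → ℕ, Spread (n * n * (T + 1) ^ 4 + 1) D c →
      NoAtypical K Γ m (scaledImage G A B R c) := by
    intro c hc r Z
    have hN : ∀ i i', 0 < ((Z.mat i).det * (Z.mat i').det).toNat := by
      intro i i'
      have := mul_pos (Z.det_pos i) (Z.det_pos i')
      omega
    have hpt : ∀ x ∈ scaledImage G A B R c ∩ Z.locus, ∀ S : Finset (Fin n),
        AlgebraicIndependent K (fun i : S => x i) → S.card + n ≤ r + m := by
      rintro x ⟨⟨y, hy, s, hxy⟩, hxZ⟩ S hS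
      obtain ⟨z, hz⟩ := hxZ
      refine hD c hc r Z.cls (fun i i' => ((Z.mat i).det * (Z.mat i').det).toNat) x s hN ?_ ?_
        (fun i => (hxy i).1) y hy.1 hy.2 (fun i => (hxy i).2) S hS
      · intro i hi
        rw [(hz i).1 hi]
        exact (Z.allowed i).isIntegral
      · intro i j l hi hj
        obtain ⟨w, hw, hxw⟩ := (hz i).2 l hi
        obtain ⟨w', hw', hxw'⟩ := (hz j).2 l hj
        refine ⟨?_, ?_⟩
        · obtain ⟨a, b, c, d, e1, e2⟩ := isogeny_rel (Z.det_pos i) hw hw'
          rw [hxw, hxw']
          exact isogenous_integral w w' a b c d (by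
            rw [e1]
            exact mul_pos (Z.det_pos i) (Z.det_pos j)) e2
        · rw [← eval_relPoly]
          exact eval_relPoly_eq_zero (Z.det_pos i) (Z.det_pos j) hw hw' hxw hxw'
    refine ⟨?_, hpt⟩
    intro W hW hcl hprime
    obtain ⟨x, hxW, T, hT, hdim⟩ := Pool.Agent.W466.ZC.generic_dim K W hprime hcl
    have h2 := hpt x (hW hxW) T hT
    calc zdim W + (n : Cardinal) ≤ (T.card : Cardinal) + (n : Cardinal) := by gcongr
      _ = ((T.card + n : ℕ) : Cardinal) := by push_cast; rfl
      _ ≤ ((r + m : ℕ) : Cardinal) := by exact_mod_cast h2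
      _ = (r : Cardinal) + (m : Cardinal) := by push_cast; rfl
  refine ⟨D, h1, ?_, ?_⟩
  · obtain ⟨δ, hδ, H₀, hH⟩ := Pool.Agent.W466.ZC.propL n (n * n * (T + 1) ^ 4 + 1) D
      (Nat.succ_pos _)
    refine ⟨δ, hδ, H₀, fun H hHH => (hH H hHH).trans ?_⟩
    have hfin : {c : Fin n → ℕ | (∀ i, 1 ≤ c i ∧ c i ≤ H) ∧
          NoAtypical K Γ m (scaledImage G A B R c)}.Finite := by
      refine (Set.Finite.pi fun _ : Fin n => Set.finite_Icc 1 H).subset ?_
      rintro c ⟨hc, -⟩ i -
      exact Set.mem_Icc.2 (hc i)
    have hsub : {c : Fin n → ℕ | (∀ i, 1 ≤ c i ∧ c i ≤ H) ∧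
        Pool.Agent.W466.ZC.SpreadL (n * n * (T + 1) ^ 4 + 1) D c} ⊆
        {c : Fin n → ℕ | (∀ i, 1 ≤ c i ∧ c i ≤ H) ∧
          NoAtypical K Γ m (scaledImage G A B R c)} := fun c hc => ⟨hc.1, h1 c hc.2⟩
    have h2 := Set.ncard_le_ncard hsub hfin
    exact_mod_cast h2
  · intro a ha0 ha H
    refine (Set.ncard_le_ncard ?_ ?_).trans
      (Pool.Agent.W466.ZC.countL (L := n * n * (T + 1) ^ 4 + 1) D a ⟨ha0, ha⟩ H)
    · rintro k ⟨hk1, hk2, hk3⟩
      exact ⟨hk1, hk2, fun hs => hk3 (h1 _ hs)⟩
    · exact (Set.finite_Icc 1 H).subset fun k hk => ⟨hk.1, hk.2.1⟩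

end Pool.Agent.Results.MP_d83ecd_ag.AnyLevelScaledImages
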