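import Pool.Agent.TH526.ZL.E

/-!
# MP_d83ecd_ag: a local criterion for Zilber-Pink in products of modular curves, and Zilber-Pink for
the transcendental members of one-parameter families

The Shimura variety `Y(1)^n` is identified with `ℂ^n` by the elliptic modular function
`jj = j = E₄³ / Δ`.

**Setting.** Let `Λ` be a subring of `ℂ` with countable fraction field (a ring `Λ` with an injection
`f : Λ → ℂ`), `B ⊆ P^N` a projective algebraic set given by forms `G k` over `Λ`, and
`f_i = A_i / B_i` quotients of forms of the same degree `d_i` over `Λ`, `i = 1, …, n`. Let `s_i` be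
functions integral over `Λ[j]`, `R_i (s_i, j) = 0` with `R_i` monic in the first variable, for
instance modular functions of any level without poles in the upper half plane (level one:
`R_i = S - J`, `s_i = j`), and let `c_i ∈ Λ`. Let
`X = {x | ∃ y ∈ B, ∃ s, ∀ i, R_i (s_i, x_i) = 0, c_i s_i = A_i (y) / B_i (y)} ⊆ Y(1)^n`
(`scaledImage`), the image of a subvariety of a product of modular curves.

**Local criterion.** Suppose there are `n (n - 1) / 2 + 1` good places (`GoodPlace`): homomorphisms
`red` from `Λ` to algebraically closed fields of any characteristic (reductions modulo prime ideals)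
such that
* the reductions of the divisors of the `f_i` are in general position: no point of the reduction of
  `B` lies on `m + 1` of them;
* the non-zero coefficients of the `R_i` do not reduce to `0`;
* `c_i` has the exact order `e_{l i} > 0` at the place,
and that the exponents are independent: `q e_{l i} e_{l j} e_{l' i} e_{l' j}` is not a square for
`l ≠ l'`, `i ≠ j`, `1 ≤ q ≤ T^8`, where `T` bounds the degrees of the `R_i` (`T = 1` for level one).
Then `X` has no atypical intersection with special subvarieties `Z` of `Y(1)^n`: every irreducible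
closed subset of `X ∩ Z` has dimension at most `dim Z + m - n`, and the same bound holds for the
transcendence degrees of the points of `X ∩ Z` over any countable field containing `Λ`. The constant
coordinates of `Z` can be special points or arbitrary numbers integral over `Λ`.

So finitely many reductions suffice, and no statement about all sufficiently large primes is needed;
`Λ` can be `ℤ`, a ring of algebraic numbers, or a ring of functions of several parameters.

**Families.** In particular (second part of `result`, `Λ = K₀[t]`) let `X_t` be a one-parameter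
family of such sets, `B`, `f_i` and `c_i` with coefficients in `K₀[t]` for a countable field
`K₀ ⊂ ℂ`, the `R_i` over `K₀`. If at `n (n - 1) / 2 + 1` numbers `α_l ∈ K₀` the polynomial `c_i` has
a zero of order `e_{l i}`, with `e` as above, and the divisors of the specializations of the `f_i` at
`t = α_l` are in general position, then for all transcendental `t = τ`, that is, all `τ ∈ ℂ` not
algebraic over `K₀`, hence for all but countably many `τ`, the set `X_τ` has no atypical
intersection with special subvarieties.
-/

namespace Pool.Agent.Results.MP_d83ecd_ag.LocalCriterion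

open H294ZP UpperHalfPlane MvPolynomial Pool.Agent.W282.ZP

/-- A special subvariety of `Y(1)^n = ℂ^n` of dimension `r` (with more constants allowed): a map
`cls` from the coordinates onto `r` classes (`none` for constant coordinates), an integral matrix
of positive determinant for every coordinate, and a constant for every coordinate, which is a
special point or integral over `Λ`. -/
structure SpecialVariety {Λ : Type} [CommRing Λ] (f : Λ →+* ℂ) (n r : ℕ) where
  cls : Fin n → Option (Fin r)
  surj : ∀ l : Fin r, ∃ i, cls i = some l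
  mat : Fin n → Matrix (Fin 2) (Fin 2) ℤ
  det_pos : ∀ i, 0 < (mat i).det
  const : Fin n → ℂ
  allowed : ∀ i, (∃ τ : ℍ, IsCM τ ∧ const i = jj τ) ∨ f.IsIntegralElem (const i)

/-- The points of the special subvariety: the constant coordinates are the given constants, and the
coordinates of class `l` are `j (g_i z_l)`, with a free parameter `z_l` in the upper half plane. -/
def SpecialVariety.locus {Λ : Type} [CommRing Λ] {f : Λ →+* ℂ} {n r : ℕ}
    (Z : SpecialVariety f n r) : Set (Fin n → ℂ) :=
  {x | ∃ z : Fin r → ℍ, ∀ i, (Z.cls i = none → x i = Z.const i) ∧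
    ∀ l, Z.cls i = some l → ∃ w : ℍ,
      (w : ℂ) * (Z.mat i 1 0 * z l + Z.mat i 1 1) = Z.mat i 0 0 * z l + Z.mat i 0 1 ∧
      x i = jj w}

/-- `y` is a vector of homogeneous coordinates, in a field `F` to which `Λ` is mapped by `f`, of a
point of the projective algebraic set `B` defined by the forms `G k`. -/
def OnB {Λ : Type} [CommRing Λ] {F : Type} [Field F] (f : Λ →+* F) {N : ℕ} {κ : Type}
    (G : κ → MvPolynomial (Fin (N + 1)) Λ) (y : Fin (N + 1) → F) : Prop :=
  y ≠ 0 ∧ ∀ k, eval₂ f y (G k) = 0

/-- The divisors of the `A i / B i` are in general position over `F`: no point of `B` lies on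
`m + 1` of them. -/
def InGeneralPosition {Λ : Type} [CommRing Λ] {F : Type} [Field F] (f : Λ →+* F) {N n : ℕ}
    {κ : Type} (m : ℕ) (G : κ → MvPolynomial (Fin (N + 1)) Λ)
    (A B : Fin n → MvPolynomial (Fin (N + 1)) Λ) : Prop :=
  ∀ I : Finset (Fin n), I.card = m + 1 → ∀ y : Fin (N + 1) → F, OnB f G y →
    ∃ i ∈ I, eval₂ f y (A i) * eval₂ f y (B i) ≠ 0

/-- The value at `(s, x)` of a polynomial `R = ∑ r_u (J) S^u` in two variables `S` and `J`. -/
noncomputable def valueAt {Λ : Type} [CommRing Λ] (f : Λ →+* ℂ) (R : Polynomial (Polynomial Λ))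
    (s x : ℂ) : ℂ :=
  Polynomial.eval₂ (Polynomial.eval₂RingHom f x) s R

/-- The subset `X` of `Y(1)^n`: the points `x` over which there are values `s_i` of the functions
on the factors of the product of modular curves, with `c_i s_i = A_i (y) / B_i (y)` for a point `y`
of `B`. -/
def scaledImage {Λ : Type} [CommRing Λ] (f : Λ →+* ℂ) {N n : ℕ} {κ : Type}
    (G : κ → MvPolynomial (Fin (N + 1)) Λ) (A B : Fin n → MvPolynomial (Fin (N + 1)) Λ)
    (R : Fin n → Polynomial (Polynomial Λ)) (c : Fin n → Λ) : Set (Fin n → ℂ) :=
  {x | ∃ y, OnB f G y ∧ ∃ s : Fin n → ℂ, ∀ i, valueAt f (R i) (s i) (x i) = 0 ∧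
    f (c i) * eval₂ f y (B i) * s i = eval₂ f y (A i)}

/-- `X` has no intersection of dimension larger than `r + m - n` with special subvarieties `Z` of
dimension `r`: every irreducible closed subset `A` of `X ∩ Z` has dimension at most `r + m - n`, and
every point of `X ∩ Z` has transcendence degree at most `r + m - n` over `K`. -/
def NoAtypical {Λ : Type} [CommRing Λ] (f : Λ →+* ℂ) (K : Subfield ℂ) {n : ℕ} (m : ℕ)
    (X : Set (Fin n → ℂ)) : Prop :=
  ∀ (r : ℕ) (Z : SpecialVariety f n r),
    (∀ A ⊆ X ∩ Z.locus, zcl A ⊆ A → (idealOf A).IsPrime →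
      zdim A + (n : Cardinal) ≤ (r : Cardinal) + (m : Cardinal)) ∧
    ∀ x ∈ X ∩ Z.locus, ∀ S : Finset (Fin n), AlgebraicIndependent K (fun i : S => x i) →
      S.card + n ≤ r + m

/-- The exponents at the `n (n - 1) / 2 + 1` places are positive and independent. -/
def IndependentExponents {n : ℕ} (T : ℕ) (e : Fin (n.choose 2 + 1) → Fin n → ℕ) : Prop :=
  (∀ l i, 0 < e l i) ∧ ∀ l l', l ≠ l' → ∀ i j, i ≠ j → ∀ q, 0 < q → q ≤ T ^ 8 →
    ¬ IsSquare (q * (e l i * e l j * (e l' i * e l' j)))

/-- A good place of the data: a homomorphism `red` to an algebraically closed field `F` over which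
the divisors are in general position, and under which the non-zero coefficients of the `R i` do not
vanish, such that `c i` has the exact order `e i` at the place, `a (c i) = b ϖ ^ (e i)` with
`red ϖ = 0` and `a`, `b` invertible at the place. -/
structure GoodPlace {Λ : Type} [CommRing Λ] {N n : ℕ} {κ : Type} (m : ℕ)
    (G : κ → MvPolynomial (Fin (N + 1)) Λ) (A B : Fin n → MvPolynomial (Fin (N + 1)) Λ)
    (R : Fin n → Polynomial (Polynomial Λ)) (c : Fin n → Λ) (e : Fin n → ℕ) where
  F : Type
  [field : Field F]
  [closed : IsAlgClosed F]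
  red : Λ →+* F
  general : InGeneralPosition red m G A B
  coeff_ne : ∀ i u w, ((R i).coeff u).coeff w ≠ 0 → red (((R i).coeff u).coeff w) ≠ 0
  ϖ : Λ
  red_ϖ : red ϖ = 0
  order : ∀ i, ∃ a b : Λ, red a ≠ 0 ∧ red b ≠ 0 ∧ a * c i = b * ϖ ^ e i

theorem main {Λ : Type} [CommRing Λ] (f : Λ →+* ℂ) (hf : Function.Injective f) (K : Subfield ℂ)
    [Countable K] (hK : ∀ a, f a ∈ K) {κ : Type} {N n m T : ℕ}
    (G : κ → MvPolynomial (Fin (N + 1)) Λ) (hG : ∀ k, ∃ e, (G k).IsHomogeneous e)
    (A B : Fin n → MvPolynomial (Fin (N + 1)) Λ) (d : Fin n → ℕ)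
    (hA : ∀ i, (A i).IsHomogeneous (d i)) (hB : ∀ i, (B i).IsHomogeneous (d i))
    (R : Fin n → Polynomial (Polynomial Λ)) (hR : ∀ i, (R i).Monic)
    (hT : ∀ i u w, ((R i).coeff u).coeff w ≠ 0 → u ≤ T ∧ w ≤ T)
    (c : Fin n → Λ) (e : Fin (n.choose 2 + 1) → Fin n → ℕ) (he : IndependentExponents T e)
    (P : ∀ l, GoodPlace m G A B R c (e l)) :
    NoAtypical f K m (scaledImage f G A B R c) := by
  classical
  have hdom : IsDomain Λ := hf.isDomain f
  let _ : Algebra Λ ℂ := f.toAlgebra
  let fK : Λ →+* K := f.codRestrict K hK
  let _ : Algebra Λ K := fK.toAlgebra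
  have hst : IsScalarTower Λ K ℂ := IsScalarTower.of_algebraMap_eq fun _ => rfl
  have hfK : Function.Injective (algebraMap Λ K) := fun a b h => hf (congrArg Subtype.val h)
  intro r Z
  have hN : ∀ i i', 0 < ((Z.mat i).det * (Z.mat i').det).toNat := by
    intro i i'
    have := mul_pos (Z.det_pos i) (Z.det_pos i')
    omega
  have hpt : ∀ x ∈ scaledImage f G A B R c ∩ Z.locus, ∀ S : Finset (Fin n),
      AlgebraicIndependent K (fun i : S => x i) → S.card + n ≤ r + m := by
    rintro x ⟨⟨y, hy, s, hxy⟩, hxZ⟩ S hS
    obtain ⟨z, hz⟩ := hxZ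
    let inst : ∀ l, Field (P l).F := fun l => (P l).field
    refine TH526.ZL.criterion (m := m) G hG A B d hA hB R hR hT c (fun l => RingHom.ker (P l).red)
      (fun l => ?_) ?_ ?_ (fun l => (P l).ϖ) (fun l => ?_) e he.1 ?_ ?_ Z.cls
      (fun i i' => ((Z.mat i).det * (Z.mat i').det).toNat) x s hN ?_ ?_
      (fun i => ?_) y hy.1 hy.2 (fun i => (hxy i).2) S (hS.restrictScalars hfK)
    · exact RingHom.ker_isPrime (P l).red
    · intro l F _ φ hφ I hI y' hy0 hyG
      have := (P l).closed
      by_contra hcon
      push Not at hcon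
      apply hy0
      refine TH526.ZL.transfer
        (fun b : κ ⊕ I => Sum.elim (fun k => G k) (fun i : I => A i * B i) b) (P l).red ?_ φ hφ y' ?_
      · intro y'' hy''
        by_contra h0
        obtain ⟨i, hi, h1⟩ := (P l).general I hI y'' ⟨h0, fun k => hy'' (Sum.inl k)⟩
        apply h1
        have h2 := hy'' (Sum.inr ⟨i, hi⟩)
        simp only [Sum.elim_inr, eval₂_mul] at h2
        exact h2
      · rintro (k | i)
        · exact hyG k
        · simp only [Sum.elim_inr, eval₂_mul]
          exact hcon i i.2
    · intro l i u w h0 h1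
      exact (P l).coeff_ne i u w h0 h1
    · exact (P l).red_ϖ
    · intro l i
      obtain ⟨a, b, ha, hb, hab⟩ := (P l).order i
      exact ⟨a, b, ha, hb, hab⟩
    · intro l l' hll i j hij q hq hqT
      exact he.2 l l' hll i j hij q hq hqT
    · intro i hi
      rw [(hz i).1 hi]
      rcases Z.allowed i with ⟨τ, hτ, hc⟩ | h
      · rw [hc]
        exact (singular_modulus_integral τ hτ).tower_top
      · exact h
    · intro i j l hi hj
      obtain ⟨w, hw, hxw⟩ := (hz i).2 l hi
      obtain ⟨w', hw', hxw'⟩ := (hz j).2 l hj
      refine ⟨?_, ?_⟩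
      · obtain ⟨a, b, c, d, e1, e2⟩ := isogeny_rel (Z.det_pos i) hw hw'
        rw [hxw, hxw']
        exact isogenous_integral w w' a b c d (by
          rw [e1]
          exact mul_pos (Z.det_pos i) (Z.det_pos j)) e2
      · rw [← eval_relPoly]
        exact eval_relPoly_eq_zero (Z.det_pos i) (Z.det_pos j) hw hw' hxw hxw'
    · exact (hxy i).1
  refine ⟨?_, hpt⟩
  intro W hW hcl hprime
  obtain ⟨x, hxW, T, hT, hdim⟩ := Pool.Agent.W466.ZC.generic_dim K W hprime hcl
  have h2 := hpt x (hW hxW) T hT
  calc zdim W + (n : Cardinal) ≤ (T.card : Cardinal) + (n : Cardinal) := by gcongr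
    _ = ((T.card + n : ℕ) : Cardinal) := by push_cast; rfl
    _ ≤ ((r + m : ℕ) : Cardinal) := by exact_mod_cast h2
    _ = (r : Cardinal) + (m : Cardinal) := by push_cast; rfl

/-- the value of a polynomial at a complex number -/
noncomputable def evalAt (K₀ : Subfield ℂ) (z : ℂ) : Polynomial K₀ →+* ℂ :=
  (Polynomial.aeval z : Polynomial K₀ →ₐ[K₀] ℂ).toRingHom

/-- The first part is the local criterion, the second part the application to the transcendental
members of one-parameter families. -/
theorem result :
    (∀ (Λ : Type) [CommRing Λ] (f : Λ →+* ℂ), Function.Injective f →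
      ∀ (K : Subfield ℂ) [Countable K], (∀ a, f a ∈ K) →
      ∀ (κ : Type) (N n m T : ℕ) (G : κ → MvPolynomial (Fin (N + 1)) Λ),
      (∀ k, ∃ e, (G k).IsHomogeneous e) →
      ∀ (A B : Fin n → MvPolynomial (Fin (N + 1)) Λ) (d : Fin n → ℕ),
      (∀ i, (A i).IsHomogeneous (d i)) → (∀ i, (B i).IsHomogeneous (d i)) →
      ∀ R : Fin n → Polynomial (Polynomial Λ), (∀ i, (R i).Monic) →
      (∀ i u w, ((R i).coeff u).coeff w ≠ 0 → u ≤ T ∧ w ≤ T) →
      ∀ (c : Fin n → Λ) (e : Fin (n.choose 2 + 1) → Fin n → ℕ), IndependentExponents T e →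
      (∀ l, Nonempty (GoodPlace m G A B R c (e l))) →
      NoAtypical f K m (scaledImage f G A B R c)) ∧
    (∀ (K₀ : Subfield ℂ) (κ : Type) (N n m T : ℕ)
      (G : κ → MvPolynomial (Fin (N + 1)) (Polynomial K₀)),
      (∀ k, ∃ e, (G k).IsHomogeneous e) →
      ∀ (A B : Fin n → MvPolynomial (Fin (N + 1)) (Polynomial K₀)) (d : Fin n → ℕ),
      (∀ i, (A i).IsHomogeneous (d i)) → (∀ i, (B i).IsHomogeneous (d i)) →
      ∀ R : Fin n → Polynomial (Polynomial K₀), (∀ i, (R i).Monic) →
      (∀ i u w, ((R i).coeff u).coeff w ≠ 0 → u ≤ T ∧ w ≤ T) →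
      ∀ (c : Fin n → Polynomial K₀) (α : Fin (n.choose 2 + 1) → K₀),
      IndependentExponents T (fun l i => (c i).rootMultiplicity (α l)) →
      (∀ l, InGeneralPosition (evalAt K₀ (α l)) m G A B) →
      ∀ τ : ℂ, Transcendental K₀ τ → ∀ (K : Subfield ℂ) [Countable K], K₀ ≤ K → τ ∈ K →
      NoAtypical (evalAt K₀ τ) K m (scaledImage (evalAt K₀ τ) G A B
        (fun i => (R i).map (Polynomial.mapRingHom Polynomial.C)) c)) := by
  classical
  refine ⟨?_, ?_⟩
  · intro Λ _ f hf K _ hK κ N n m T G hG A B d hA hB R hR hT c e he P
    exact main f hf K hK G hG A B d hA hB R hR hT c e he fun l => (P l).some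
  · intro K₀ κ N n m T G hG A B d hA hB R hR hT c α he hpos τ hτ K _ hK₀ hτK
    have hf : Function.Injective (evalAt K₀ τ) := transcendental_iff_injective.1 hτ
    refine main (evalAt K₀ τ) hf K ?_ G hG A B d hA hB _ (fun i => (hR i).map _) ?_ c
      (fun l i => (c i).rootMultiplicity (α l)) he fun l => ?_
    · intro a
      show Polynomial.aeval τ a ∈ K
      rw [Polynomial.aeval_eq_sum_range]
      refine sum_mem fun i _ => ?_
      rw [Algebra.smul_def]
      exact mul_mem (hK₀ (a.coeff i).2) (pow_mem hτK i)
    · intro i u w h0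
      rw [Polynomial.coeff_map, Polynomial.coe_mapRingHom, Polynomial.coeff_map] at h0
      exact hT i u w fun h1 => h0 (by rw [h1, map_zero])
    · have hev : ∀ a : K₀, evalAt K₀ (α l) (Polynomial.C a) = (a : ℂ) := by
        intro a
        show Polynomial.aeval _ (Polynomial.C a) = _
        rw [Polynomial.aeval_C]
        rfl
      have hev2 : ∀ p : Polynomial K₀, evalAt K₀ (α l) p = ((p.eval (α l) : K₀) : ℂ) := by
        intro p
        show Polynomial.aeval (algebraMap K₀ ℂ (α l)) p = _
        rw [Polynomial.aeval_algebraMap_apply]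
        rfl
      exact
        { F := ℂ
          red := evalAt K₀ (α l)
          general := hpos l
          coeff_ne := by
            intro i u w h0
            rw [Polynomial.coeff_map, Polynomial.coe_mapRingHom, Polynomial.coeff_map] at h0 ⊢
            rw [hev]
            intro h1
            apply h0
            rw [show ((R i).coeff u).coeff w = 0 from Subtype.ext h1, map_zero]
          ϖ := Polynomial.X - Polynomial.C (α l)
          red_ϖ := by
            rw [hev2, Polynomial.eval_sub, Polynomial.eval_X, Polynomial.eval_C, sub_self]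
            rfl
          order := by
            intro i
            have hc0 : c i ≠ 0 := by
              intro h0
              have := he.1 l i
              change 0 < (c i).rootMultiplicity (α l) at this
              rw [h0, Polynomial.rootMultiplicity_zero] at this
              exact lt_irrefl _ this
            obtain ⟨q, hq1, hq2⟩ :=
              Polynomial.exists_eq_pow_rootMultiplicity_mul_and_not_dvd (c i) hc0 (α l)
            refine ⟨1, q, ?_, ?_, ?_⟩
            · rw [map_one]
              exact one_ne_zero
            · rw [hev2]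
              intro h1
              apply hq2
              rw [Polynomial.dvd_iff_isRoot, Polynomial.IsRoot.def]
              exact Subtype.ext h1
            · rw [one_mul]
              conv_lhs => rw [hq1]
              ring }

end Pool.Agent.Results.MP_d83ecd_ag.LocalCriterion
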