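import Pool.Agent.TH971.SR.P3
import Pool.Agent.W282.LF.Top

/-!
# MP_d83ecd_ag: Zilber-Pink in `Y(1)^n` for a positive proportion of all subvarieties given by
correspondences over an arbitrary projective variety

The Shimura variety `Y(1)^n` is identified with `ℂ^n` by the elliptic modular function
`jj = j = E₄³ / Δ`. `B ⊆ P^N` is an arbitrary projective variety over the algebraic numbers of
dimension at most `m` (`DimLE`): the set of zeros of a family `G` of forms with algebraic
coefficients.

A vector `c` of integers gives `r` numerators `N_j` and `r` denominators `M_j`, polynomials of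
multidegree `D` in the coordinates `x_1, …, x_n` of `Y(1)^n`, `N_j = ∑_f c(j, 0, f)(y) x^f` and
`M_j = ∑_f c(j, 1, f)(y) x^f` with all the exponent vectors `f ≤ D`, where the coefficients are
arbitrary forms of degree `d_j` in `y_0, …, y_N` with integral coefficients, and the rational map
`F_c = (N_1 / M_1, …, N_r / M_r)` from `B × Y(1)^n` to `ℂ^r`.

Let `V` be any irreducible subvariety of `ℂ^r` over the complex numbers, of any dimension `d`. Let
`X_c = pullback G c V` be the closed set of all points of `B × Y(1)^n` at which the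
multihomogenizations of the polynomials in the ideal of `V` vanish, evaluated at `N_j, M_j`. It
contains the closure of the pull-back `F_c⁻¹(V)`. For `V = {0}` it is the complete intersection
`N_1 = … = N_r = 0` in `B × Y(1)^n`. Its image `V_c` in `Y(1)^n` is a closed subvariety, as `B` is
projective (the locus of the moduli points `x` for which the system of equations has a solution
`y ∈ B`). The expected dimensions are `dim X_c = m + n - (r - d)`, and `dim V_c` is the same number
if `r - d ≥ m`, i.e. `codim V_c = (r - d) - m`. (Every component of `X_c` has at least this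
dimension, if all components of `B` have dimension `m`, outside of the common zeros of `N_j` and
`M_j` for some `j`, and everywhere for `V = {0}`.) For a point `B` these are the pull-backs of `V`
to `Y(1)^n`.

A special subvariety of `Y(1)^n` of dimension `t` is given by a map `cls` from the coordinates onto
`t` classes: the constant coordinates are special points, and the coordinates of class `l` are
`j (g_i z_l)` with fixed integral matrices `g_i` of positive determinant and a free parameter `z_l`
in the upper half plane. More generally we allow for any finite set `Γ` of complex numbers constants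
which are special, isogenous to an element of `Γ`, or integral over `ℤ[Γ]` (`ModularDatum`). For
`Γ = ∅` these are all special subvarieties (and some more).

Theorem: for a positive proportion of the vectors `c` (in every box, in every residue class) there
are no atypical intersections: for every `ρ` every irreducible closed subset `W` of the
intersection of `V_c` with the union of all special subvarieties `Z` of codimension at least `ρ` of
`Y(1)^n` has dimension at most `m + n - (r - d) - ρ`, so that `dim W ≤ dim V_c + dim Z - n` if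
`dim V_c = m + n - (r - d)`. The same bound holds for the irreducible closed subsets `W` of the
intersection of `X_c` with `B × Z`. For `ρ = 0` it follows that `X_c` has the expected dimension, if
it is not empty. If a component `C` of `V_c` is the image of a component `X'` of `X_c` with fibres of
dimension `f > 0`, the second statement implies `dim W ≤ dim C - ρ` for all `W ⊆ C` as above (the
inverse image of `W` in `X'` has dimension at least `dim W + f`, and at most
`dim X' - ρ = dim C + f - ρ`): there are no atypical intersections for `V_c` in all cases.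
-/

namespace Pool.Agent.Results.MP_d83ecd_ag.RandomCorrespondences

open MvPolynomial Pool.Agent.W282.ZP H294ZP UpperHalfPlane

/-- The value at `y` of the form of degree `d` with integral coefficients `c u`, the monomials of
degree `d` in `y_0, …, y_N` being indexed by the multisets `u` of size `d`. -/
noncomputable def value {N d : ℕ} (c : Sym (Fin (N + 1)) d → ℤ) (y : Fin (N + 1) → ℂ) : ℂ :=
  ∑ u : Sym (Fin (N + 1)) d, (c u : ℂ) * ((u : Multiset (Fin (N + 1))).map y).prod

/-- `y` is a vector of homogeneous coordinates of a point of the projective algebraic set `B`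
defined by the forms `G k`. -/
def OnB {N : ℕ} {κ : Type*} (G : κ → MvPolynomial (Fin (N + 1)) ℂ) (y : Fin (N + 1) → ℂ) : Prop :=
  y ≠ 0 ∧ ∀ k, eval y (G k) = 0

/-- The projective algebraic set defined by the forms `G k` has dimension at most `m`: it does not
meet some linear subspace defined by `m + 1` linear forms. -/
def DimLE {N : ℕ} {κ : Type*} (G : κ → MvPolynomial (Fin (N + 1)) ℂ) (m : ℕ) : Prop :=
  ∃ t : Fin (m + 1) → Fin (N + 1) → ℂ, ∀ y, OnB G y → ∃ b, ∑ j, t b j * y j ≠ 0

/-- A special subvariety of `Y(1)^n = ℂ^n` of dimension `t` (with more constants allowed): a map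
`cls` from the coordinates onto `t` classes (`none` for constant coordinates), an integral matrix of
positive determinant for every coordinate, and a constant for every coordinate, which is a special
point, isogenous to an element of `Γ`, or integral over `ℤ[Γ]`. -/
structure ModularDatum (Γ : Finset ℂ) (n t : ℕ) where
  cls : Fin n → Option (Fin t)
  surj : ∀ l : Fin t, ∃ i, cls i = some l
  mat : Fin n → Matrix (Fin 2) (Fin 2) ℤ
  det_pos : ∀ i, 0 < (mat i).det
  const : Fin n → ℂ
  allowed : ∀ i, AllowedConst Γ (const i)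

/-- The points of the special subvariety: the constant coordinates are the given constants, and the
coordinates of class `l` are `j (g_i z_l)`, with a free parameter `z_l` in the upper half plane. -/
def ModularDatum.locus {Γ : Finset ℂ} {n t : ℕ} (Z : ModularDatum Γ n t) : Set (Fin n → ℂ) :=
  {x | ∃ z : Fin t → ℍ, ∀ i, (Z.cls i = none → x i = Z.const i) ∧
    ∀ l, Z.cls i = some l → ∃ w : ℍ,
      (w : ℂ) * (Z.mat i 1 0 * z l + Z.mat i 1 1) = Z.mat i 0 0 * z l + Z.mat i 0 1 ∧
      x i = jj w}

/-- The point `x` of `Y(1)^n` is in a special subvariety of codimension at least `ρ`. -/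
def InSpecial (Γ : Finset ℂ) {n : ℕ} (x : Fin n → ℂ) (ρ : ℕ) : Prop :=
  ∃ (t : ℕ) (Z : ModularDatum Γ n t), ρ + t ≤ n ∧ x ∈ Z.locus

/-- The index set of the integral coefficients of the forms `c(j, s, f)`, for `j = 1, …, r`,
`s = 0` (numerator), `1` (denominator), and all exponent vectors `f ≤ D`. -/
abbrev Idx {n : ℕ} (N r : ℕ) (D : Fin n → ℕ) (d : Fin r → ℕ) : Type :=
  Σ x : Fin r × Fin 2 × ((i : Fin n) → Fin (D i + 1)), Sym (Fin (N + 1)) (d x.1)

/-- The coefficient vectors of the rational maps from `B × Y(1)^n` to `ℂ^r`. -/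
abbrev Coeffs {n : ℕ} (N r : ℕ) (D : Fin n → ℕ) (d : Fin r → ℕ) : Type := Idx N r D d → ℤ

variable {N n r : ℕ} {D : Fin n → ℕ} {d : Fin r → ℕ}

/-- The value of the numerator (`s = 0`) or denominator (`s = 1`) of the `j`-th component at the
point `(y, x)`. -/
noncomputable def form (c : Coeffs N r D d) (s : Fin 2) (y : Fin (N + 1) → ℂ) (x : Fin n → ℂ)
    (j : Fin r) : ℂ :=
  ∑ f : (i : Fin n) → Fin (D i + 1), value (fun u => c ⟨(j, s, f), u⟩) y * ∏ i, x i ^ (f i : ℕ)

/-- The pull-back `X_c` of `V` to `B × Y(1)^n`: the points at which the multihomogenizations of all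
the polynomials `g` in the ideal of `V` vanish, evaluated at the values of the numerators and
denominators. -/
def pullback {κ : Type*} (G : κ → MvPolynomial (Fin (N + 1)) ℂ) (c : Coeffs N r D d)
    (V : Set (Fin r → ℂ)) : Set ((Fin (N + 1) → ℂ) × (Fin n → ℂ)) :=
  {z | OnB G z.1 ∧ ∀ g ∈ idealOf V, ∑ v ∈ g.support, g.coeff v *
    ∏ j, (form c 0 z.1 z.2 j ^ (v j) * form c 1 z.1 z.2 j ^ (g.degreeOf j - v j)) = 0}

/-- For all `ρ` every irreducible closed subset `W` of the intersection of the image of `X` in
`Y(1)^n` with the union of the special subvarieties of codimension at least `ρ` satisfies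
`dim W + ρ + r ≤ m + n + d`, and the same holds for the irreducible closed subsets of the set of all
points `(y, x)` of `X` such that `x` is in this union.

The first statement is more precisely about the irreducible closed sets `W`, such that all points of
`W` outside of some hypersurface `p = 0`, which does not contain `W`, are in this intersection. In
the second statement `W` is an irreducible closed set of vectors, such that all vectors in `W`
outside of some hypersurface, which does not contain `W`, are the vectors of coordinates (numbered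
in any way) of such points `(y, x)` over the affine part `y_{j₀} = 1` of `P^N`. -/
def NoAtypical (Γ : Finset ℂ) (X : Set ((Fin (N + 1) → ℂ) × (Fin n → ℂ))) (m r : ℕ)
    (d : Cardinal) : Prop :=
  ∀ ρ : ℕ,
    (∀ (W : Set (Fin n → ℂ)) (p : MvPolynomial (Fin n) ℂ),
      (∀ x ∈ W, eval x p ≠ 0 → (∃ y, (y, x) ∈ X) ∧ InSpecial Γ x ρ) →
      zcl W ⊆ W → (idealOf W).IsPrime → p ∉ idealOf W →
      zdim W + (ρ : Cardinal) + (r : Cardinal) ≤ (m : Cardinal) + (n : Cardinal) + d) ∧
    ∀ (j₀ : Fin (N + 1)) (s : ℕ) (σ : Fin s ≃ Fin (N + 1) ⊕ Fin n) (W : Set (Fin s → ℂ))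
      (p : MvPolynomial (Fin s) ℂ),
      (∀ w ∈ W, eval w p ≠ 0 →
        ∃ z ∈ X, z.1 j₀ = 1 ∧ InSpecial Γ z.2 ρ ∧ ∀ i, w i = Sum.elim z.1 z.2 (σ i)) →
      zcl W ⊆ W → (idealOf W).IsPrime → p ∉ idealOf W →
      zdim W + (ρ : Cardinal) + (r : Cardinal) ≤ (m : Cardinal) + (n : Cardinal) + d

/-- coordinates of the same class are isogenous -/
theorem rel_of_class {Γ : Finset ℂ} {n t : ℕ} (Z : ModularDatum Γ n t) {x : Fin n → ℂ}
    (hx : x ∈ Z.locus) {i i' : Fin n} {l : Fin t} (hi : Z.cls i = some l)
    (hi' : Z.cls i' = some l) : IsIntegral (Algebra.adjoin ℤ {x i}) (x i') := by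
  obtain ⟨z, hz⟩ := hx
  obtain ⟨w, hw, hxw⟩ := (hz i).2 l hi
  obtain ⟨w', hw', hxw'⟩ := (hz i').2 l hi'
  rw [hxw, hxw']
  have hdet := Z.det_pos i
  have hdet' := Z.det_pos i'
  rw [Matrix.det_fin_two] at hdet hdet'
  set a := Z.mat i 0 0
  set b := Z.mat i 0 1
  set c := Z.mat i 1 0
  set d := Z.mat i 1 1
  set a' := Z.mat i' 0 0
  set b' := Z.mat i' 0 1
  set c' := Z.mat i' 1 0
  set d' := Z.mat i' 1 1
  have hn := denom_ne (z := z l) hdet
  apply isogenous_integral w w' (a' * d - b' * c) (-(a' * b) + b' * a) (c' * d - d' * c)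
    (-(c' * b) + d' * a)
  · have : (a' * d - b' * c) * (-(c' * b) + d' * a) - (-(a' * b) + b' * a) * (c' * d - d' * c) =
        (a * d - b * c) * (a' * d' - b' * c') := by ring
    rw [this]
    exact mul_pos hdet hdet'
  · have key : (w' : ℂ) * (((c' * d - d' * c : ℤ) : ℂ) * w + ((-(c' * b) + d' * a : ℤ) : ℂ)) *
        ((c : ℂ) * z l + d) =
        (((a' * d - b' * c : ℤ) : ℂ) * w + ((-(a' * b) + b' * a : ℤ) : ℂ)) *
        ((c : ℂ) * z l + d) := by
      push_cast
      linear_combination ((w' : ℂ) * ((c' : ℂ) * d - d' * c) - ((a' : ℂ) * d - b' * c)) * hw +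
        ((a : ℂ) * d - b * c) * hw'
    exact mul_right_cancel₀ hn key

/-- scaling of the coordinates of the base -/
theorem scale_mem {κ : Type*} {G : κ → MvPolynomial (Fin (N + 1)) ℂ}
    (hhom : ∀ k, ∃ e, (G k).IsHomogeneous e) {c : Coeffs N r D d} {V : Set (Fin r → ℂ)}
    {y : Fin (N + 1) → ℂ} {x : Fin n → ℂ} (h : (y, x) ∈ pullback G c V) {a : ℂ} (ha : a ≠ 0) :
    (a • y, x) ∈ pullback G c V := by
  obtain ⟨⟨h1, h2⟩, h3⟩ := h
  refine ⟨⟨smul_ne_zero ha h1, fun k => ?_⟩, fun g hg => ?_⟩
  · obtain ⟨w, hw⟩ := hhom k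
    change eval (a • y) (G k) = 0
    rw [Pool.Agent.W466.ZC.eval_smul hw, h2 k, mul_zero]
  · have h4 : ∀ (s : Fin 2) (j : Fin r), form c s (a • y) x j = a ^ d j * form c s y x j := by
      intro s j
      unfold form
      rw [Finset.mul_sum]
      refine Finset.sum_congr rfl fun f _ => ?_
      have h5 : value (fun u => c ⟨(j, s, f), u⟩) (a • y) =
          a ^ d j * value (fun u => c ⟨(j, s, f), u⟩) y :=
        Pool.Agent.W466.ZP.ev_smul (fun u => c ⟨(j, s, f), u⟩) a y
      rw [h5, mul_assoc]
    have h5 := Pool.Agent.TH971.SR.homV_scale (fun j => form c 0 y x j) (fun j => form c 1 y x j)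
      (fun j => a ^ d j) g
    have h6 : Pool.Agent.TH971.SP.homV (fun j => form c 0 y x j) (fun j => form c 1 y x j) g = 0 :=
      h3 g hg
    rw [h6, mul_zero] at h5
    have h7 : Pool.Agent.TH971.SP.homV (fun j => form c 0 (a • y) x j)
        (fun j => form c 1 (a • y) x j) g = 0 := by
      rw [← h5]
      congr 1
      · funext j
        exact h4 0 j
      · funext j
        exact h4 1 j
    exact h7

/-- Let `B` be any projective variety of dimension at most `m` over the algebraic numbers. For every
irreducible `V ⊂ ℂ^r`, every multidegree `D`, all degrees `d_j` and every finite set `Γ`, in every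
residue class modulo any `Q₀` and in every box `H u + [-ε H, ε H]` there is a positive proportion of
integer vectors `c` for which the subvariety `V_c` of `Y(1)^n` given by the correspondence
`X_c ⊆ B × Y(1)^n` has no atypical intersections. -/
theorem result {κ : Type} {N n : ℕ} (m r : ℕ) (G : κ → MvPolynomial (Fin (N + 1)) ℂ)
    (hhom : ∀ k, ∃ e, (G k).IsHomogeneous e) (halg : ∀ k s, IsAlgebraic ℚ ((G k).coeff s))
    (hdim : DimLE G m) (V : Set (Fin r → ℂ)) (hV : (idealOf V).IsPrime) (D : Fin n → ℕ)
    (d : Fin r → ℕ) (Γ : Finset ℂ)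
    (Q₀ : ℕ) (hQ₀ : 0 < Q₀) (c₀ : Coeffs N r D d) (u : Idx N r D d → ℝ) (ε : ℝ) (hε : 0 < ε) :
    ∃ δ : ℝ, 0 < δ ∧ ∀ᶠ H : ℕ in Filter.atTop,
      δ * (H : ℝ) ^ (Fintype.card (Idx N r D d)) ≤
        Nat.card {c : Coeffs N r D d // (∀ i, |(c i : ℝ) - H * u i| ≤ ε * H) ∧
          (∀ i, (Q₀ : ℤ) ∣ c i - c₀ i) ∧ NoAtypical Γ (pullback G c V) m r (zdim V)} := by
  classical
  have hfin : Algebra.trdeg ℂ (MvPolynomial (Fin r) ℂ ⧸ idealOf V) < Cardinal.aleph0 :=
    trdeg_lt_aleph0_of_finiteType
  obtain ⟨dV, hd⟩ := Cardinal.lt_aleph0.1 hfin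
  have h1 : ∃ t : Fin (m + 1) → Fin (N + 1) → ℂ, ∀ y : Fin (N + 1) → ℂ,
      (∀ k, eval y (G k) = 0) → (∀ b, ∑ j, t b j * y j = 0) → y = 0 := by
    obtain ⟨t, ht⟩ := hdim
    refine ⟨t, fun y hy hb => ?_⟩
    by_contra h0
    obtain ⟨b, hb'⟩ := ht y ⟨h0, hy⟩
    exact hb' (hb b)
  obtain ⟨K, Q, Gt, hK, hQ, hmain⟩ := Pool.Agent.TH971.SR.exists_classP D d (idealOf V) hd G hhom
    halg h1 Γ Q₀ hQ₀ c₀
  refine pos_proportion' Q hQ Gt _ (fun c hc => ?_) u ε hε
  obtain ⟨hc0, hkey⟩ := hmain c hc
  refine ⟨hc0, ?_⟩
  have hkey' : ∀ (x : Fin n → ℂ) (ρ : ℕ), InSpecial Γ x ρ → ∀ (y : Fin (N + 1) → ℂ)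
      (j0 : Fin (N + 1)), y j0 = 1 → (y, x) ∈ pullback G c V →
      ∀ (T1 : Finset (Fin (N + 1))) (T2 : Finset (Fin n)),
      AlgebraicIndependent K (Sum.elim (fun j : T1 => y j) (fun j : T2 => x j)) →
      T1.card + T2.card + ρ + r ≤ m + n + dV := by
    rintro x ρ ⟨t, Z, hρ, hx⟩ y j0 hj0 hX T1 T2 hT
    have hrn : t ≤ n := by omega
    have h3 := hkey t Z.cls x hrn (fun i hi => by
        obtain ⟨z, hz⟩ := hx
        rw [(hz i).1 hi]
        exact (Z.allowed i).isIntegral) (fun i i' l hi hi' => rel_of_class Z hx hi hi') y j0 hj0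
      hX.1.2 hX.2 T1 T2 hT
    omega
  have hfinal : ∀ {T k : ℕ} {z : Cardinal}, z ≤ (T : Cardinal) → T + k + r ≤ m + n + dV →
      z + (k : Cardinal) + (r : Cardinal) ≤ (m : Cardinal) + (n : Cardinal) + zdim V := by
    intro T k z hz h
    calc z + (k : Cardinal) + (r : Cardinal)
        ≤ (T : Cardinal) + (k : Cardinal) + (r : Cardinal) := by gcongr
      _ = ((T + k + r : ℕ) : Cardinal) := by push_cast; rfl
      _ ≤ ((m + n + dV : ℕ) : Cardinal) := by exact_mod_cast h
      _ = (m : Cardinal) + (n : Cardinal) + zdim V := by rw [zdim, hd]; push_cast; rfl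
  intro ρ
  constructor
  · intro W p hW hcl hprime hp
    obtain ⟨w, hwW, hpw, T, hT, hdimW⟩ :=
      Pool.Agent.W282.LF.generic_dim_open K W hprime hcl p hp
    obtain ⟨⟨y, hyX⟩, hwS⟩ := hW w hwW hpw
    obtain ⟨j0, hj0⟩ : ∃ j0, y j0 ≠ 0 := by
      by_contra hcon
      push Not at hcon
      exact hyX.1.1 (funext hcon)
    refine hfinal hdimW ?_
    have h3 := hkey' w ρ hwS ((y j0)⁻¹ • y) j0 (by
      rw [Pi.smul_apply, smul_eq_mul, inv_mul_cancel₀ hj0]) (scale_mem hhom hyX (inv_ne_zero hj0))
      ∅ T (by
        let g : ((∅ : Finset (Fin (N + 1))) ⊕ T) → T := Sum.elim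
          (fun j => absurd j.2 (Finset.notMem_empty _)) id
        have hg : Function.Injective g := by
          rintro (x | x) (y | y) h
          · exact absurd x.2 (Finset.notMem_empty _)
          · exact absurd x.2 (Finset.notMem_empty _)
          · exact absurd y.2 (Finset.notMem_empty _)
          · exact congrArg Sum.inr h
        have h5 := hT.comp g hg
        convert h5 using 1
        funext j
        rcases j with j | j
        · exact absurd j.2 (Finset.notMem_empty _)
        · rfl)
    rw [Finset.card_empty, zero_add] at h3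
    exact h3
  · intro j₀ s σ W p hW hcl hprime hp
    obtain ⟨w, hwW, hpw, T, hT, hdimW⟩ :=
      Pool.Agent.W282.LF.generic_dim_open K W hprime hcl p hp
    obtain ⟨⟨y, x⟩, hzX, hzj, hzS, hwz⟩ := hW w hwW hpw
    set T' : Finset (Fin (N + 1) ⊕ Fin n) := T.map σ.toEmbedding with hT'
    have hTT : ∀ j, j ∈ T' → σ.symm j ∈ T := by
      intro j hj
      obtain ⟨t, ht, h⟩ := Finset.mem_map.1 hj
      rw [← h]
      simpa using ht
    let g : T'.toLeft ⊕ T'.toRight → T := Sum.elim
      (fun j => ⟨σ.symm (Sum.inl j), hTT _ (Finset.mem_toLeft.1 j.2)⟩)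
      (fun j => ⟨σ.symm (Sum.inr j), hTT _ (Finset.mem_toRight.1 j.2)⟩)
    have hg : Function.Injective g := by
      rintro (x | x) (y | y) h
      · have h1 := congrArg Subtype.val h
        have h2 := Sum.inl_injective (σ.symm.injective h1)
        rw [Subtype.ext h2]
      · have h1 := congrArg Subtype.val h
        have h2 := σ.symm.injective h1
        exact absurd h2 Sum.inl_ne_inr
      · have h1 := congrArg Subtype.val h
        have h2 := σ.symm.injective h1
        exact absurd h2 Sum.inr_ne_inl
      · have h1 := congrArg Subtype.val h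
        have h2 := Sum.inr_injective (σ.symm.injective h1)
        rw [Subtype.ext h2]
    refine hfinal hdimW ?_
    have h3 := hkey' x ρ hzS y j₀ hzj hzX T'.toLeft T'.toRight (by
        have h5 := hT.comp g hg
        convert h5 using 1
        funext j
        rcases j with j | j
        · change y j = w (σ.symm (Sum.inl j))
          rw [hwz, Equiv.apply_symm_apply]
          rfl
        · change x j = w (σ.symm (Sum.inr j))
          rw [hwz, Equiv.apply_symm_apply]
          rfl)
    have hT2 : T'.toLeft.card + T'.toRight.card = T.card := by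
      rw [Finset.card_toLeft_add_card_toRight, hT', Finset.card_map]
    rw [hT2] at h3
    exact h3

end Pool.Agent.Results.MP_d83ecd_ag.RandomCorrespondences
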