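import Pool.Agent.TH526.ZL.M
import Pool.Agent.TH526.ZL.N
import Pool.Agent.TH526.ZL.E

/-!
# MP_d83ecd_ag: Zilber-Pink for all but finitely many rational members of one-parameter families

The Shimura variety `Y(1)^n` is identified with `ℂ^n` by the elliptic modular function
`jj = j = E₄³ / Δ`.

**Families.** Let `K ⊂ ℂ` be a countable field. We consider algebraic families `X_t` of
subsets of `Y(1)^n` with one parameter `t`, given by
* a family `B_t ⊆ P^N` of projective algebraic sets, defined by forms `G k` with coefficients in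
  `K[t]`,
* quotients `f_i = A_i / B_i` of forms of the same degree `d_i` with coefficients in `K[t]`,
* functions `s_i` integral over `K[j]`, `R_i (s_i, j) = 0` with `R_i` monic in the first variable
  (level one: `R_i = S - J`, `s_i = j`; in general modular functions of any level without poles
  in the upper half plane), and polynomials `c_i ∈ K[t]`:
`X_t = {x | ∃ y ∈ B_t, ∃ s, ∀ i, R_i (s_i, x_i) = 0, c_i (t) s_i = A_i (y) / B_i (y)}`
(`scaledImage`), the image of a family of subvarieties of a product of modular curves of any levels.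

**Theorem.** Suppose that the family degenerates at `M ≥ n (n - 1) / 2 + 3` rational values
`t = α_1, …, α_M` of the parameter in the following sense:
* no point of `B_{α_l}` lies on `m + 1` of the divisors of the `f_i` (at `t = α_l`), and
* the `c_i` have zeros at `α_l`, of orders `e_{l i} > 0`, and these orders are independent:
  `q e_{l i} e_{l j} e_{l' i} e_{l' j}` is not a square for `l ≠ l'`, `i ≠ j`, `1 ≤ q ≤ T^8`, where
  `T` bounds the degrees of the `R_i` (`T = 1` for level one).
Then for all but finitely many rational numbers `t` the set `X_t` has no atypical intersection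
with special subvarieties `Z` of `Y(1)^n`: every irreducible closed subset of `X_t ∩ Z` has dimension
at most `dim Z + m - n`, and the same bound holds for the transcendence degrees of the points of
`X_t ∩ Z` over `K`. The constant coordinates of `Z` can be special points or integral over the ring
generated by any given finite subset `Γ` of `K`.

For example let `V ⊂ Y(1)^n` be any subvariety of dimension `m` (over any countable field) such that
no `m + 1` of the coordinates are all in `{0, ∞}` at a point of the closure of `V`, and let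
`c_i = ∏_l (t - α_l)^(e_{l i})`; then all but finitely many of the scalings `c (t)^(-1) V`, `t ∈ ℚ`,
have no atypical subvariety.

The proof combines a local criterion at large primes dividing the numerators of `t - α_l` with
the finiteness of the number of solutions of the `S`-unit equation, which follows from the `S`-adic
subspace theorem (helper files of `TH461` and `TH551`).
-/

namespace Pool.Agent.Results.MP_d83ecd_ag.RationalParameters

open H294ZP UpperHalfPlane MvPolynomial Pool.Agent.W282.ZP

/-- A special subvariety of `Y(1)^n = ℂ^n` of dimension `r` (with more constants allowed): a map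
`cls` from the coordinates onto `r` classes (`none` for constant coordinates), an integral matrix
of positive determinant for every coordinate, and a constant for every coordinate, which is a
special point or integral over `Λ`. -/
structure SpecialVariety {Λ : Type} [CommRing Λ] (f : Λ →+* ℂ) (n r : ℕ) where
  cls : Fin n → Option (Fin r)
  surj : ∀ l : Fin r, ∃ i, cls i = some l
  mat : Fin n → Matrix (Fin 2) (Fin 2) ℤ
  det_pos : ∀ i, 0 < (mat i).det
  const : Fin n → ℂ
  allowed : ∀ i, (∃ τ : ℍ, IsCM τ ∧ const i = jj τ) ∨ f.IsIntegralElem (const i)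

/-- The points of the special subvariety: the constant coordinates are the given constants, and the
coordinates of class `l` are `j (g_i z_l)`, with a free parameter `z_l` in the upper half plane. -/
def SpecialVariety.locus {Λ : Type} [CommRing Λ] {f : Λ →+* ℂ} {n r : ℕ}
    (Z : SpecialVariety f n r) : Set (Fin n → ℂ) :=
  {x | ∃ z : Fin r → ℍ, ∀ i, (Z.cls i = none → x i = Z.const i) ∧
    ∀ l, Z.cls i = some l → ∃ w : ℍ,
      (w : ℂ) * (Z.mat i 1 0 * z l + Z.mat i 1 1) = Z.mat i 0 0 * z l + Z.mat i 0 1 ∧
      x i = jj w}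

/-- `X` has no intersection of dimension larger than `r + m - n` with special subvarieties `Z` of
dimension `r`: every irreducible closed subset `A` of `X ∩ Z` has dimension at most `r + m - n`, and
every point of `X ∩ Z` has transcendence degree at most `r + m - n` over `K`. -/
def NoAtypical {Λ : Type} [CommRing Λ] (f : Λ →+* ℂ) (K : Subfield ℂ) {n : ℕ} (m : ℕ)
    (X : Set (Fin n → ℂ)) : Prop :=
  ∀ (r : ℕ) (Z : SpecialVariety f n r),
    (∀ A ⊆ X ∩ Z.locus, zcl A ⊆ A → (idealOf A).IsPrime →
      zdim A + (n : Cardinal) ≤ (r : Cardinal) + (m : Cardinal)) ∧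
    ∀ x ∈ X ∩ Z.locus, ∀ S : Finset (Fin n), AlgebraicIndependent K (fun i : S => x i) →
      S.card + n ≤ r + m

/-- the value at `t` of a polynomial with coefficients in `K` -/
noncomputable def evalAt (K : Subfield ℂ) (t : ℚ) : Polynomial K →+* ℂ :=
  (Polynomial.aeval (t : ℂ) : Polynomial K →ₐ[K] ℂ).toRingHom

/-- `y` is a vector of homogeneous coordinates of a point of the member `B_t` of the family of
projective algebraic sets defined by the forms `G k`. -/
def OnB {K : Subfield ℂ} (t : ℚ) {N : ℕ} {κ : Type}
    (G : κ → MvPolynomial (Fin (N + 1)) (Polynomial K)) (y : Fin (N + 1) → ℂ) : Prop :=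
  y ≠ 0 ∧ ∀ k, eval₂ (evalAt K t) y (G k) = 0

/-- The divisors of the `A i / B i` are in general position at `t`: no point of `B_t` lies on
`m + 1` of them. -/
def InGeneralPosition {K : Subfield ℂ} (t : ℚ) {N n : ℕ} {κ : Type} (m : ℕ)
    (G : κ → MvPolynomial (Fin (N + 1)) (Polynomial K))
    (A B : Fin n → MvPolynomial (Fin (N + 1)) (Polynomial K)) : Prop :=
  ∀ I : Finset (Fin n), I.card = m + 1 → ∀ y : Fin (N + 1) → ℂ, OnB t G y →
    ∃ i ∈ I, eval₂ (evalAt K t) y (A i) * eval₂ (evalAt K t) y (B i) ≠ 0

/-- The value at `(s, x)` of a polynomial `R = ∑ r_u (J) S^u` in two variables `S` and `J`. -/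
noncomputable def valueAt {K : Subfield ℂ} (R : Polynomial (Polynomial K)) (s x : ℂ) : ℂ :=
  Polynomial.eval₂ (Polynomial.aeval x : Polynomial K →ₐ[K] ℂ).toRingHom s R

/-- The member `X_t` of the family of subsets of `Y(1)^n`: the points `x` over which there are
values `s_i` of the functions on the factors of the product of modular curves, with
`c_i (t) s_i = A_i (y) / B_i (y)` for a point `y` of `B_t`. -/
def scaledImage {K : Subfield ℂ} (t : ℚ) {N n : ℕ} {κ : Type}
    (G : κ → MvPolynomial (Fin (N + 1)) (Polynomial K))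
    (A B : Fin n → MvPolynomial (Fin (N + 1)) (Polynomial K))
    (R : Fin n → Polynomial (Polynomial K)) (c : Fin n → Polynomial K) : Set (Fin n → ℂ) :=
  {x | ∃ y, OnB t G y ∧ ∃ s : Fin n → ℂ, ∀ i, valueAt (R i) (s i) (x i) = 0 ∧
    evalAt K t (c i) * eval₂ (evalAt K t) y (B i) * s i = eval₂ (evalAt K t) y (A i)}

/-- The exponents at the `M` degenerate members are positive and independent. -/
def IndependentExponents {n M : ℕ} (T : ℕ) (e : Fin M → Fin n → ℕ) : Prop :=
  (∀ l i, 0 < e l i) ∧ ∀ l l', l ≠ l' → ∀ i j, i ≠ j → ∀ q, 0 < q → q ≤ T ^ 8 →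
    ¬ IsSquare (q * (e l i * e l j * (e l' i * e l' j)))

/-- If the family `X_t` degenerates at `n (n - 1) / 2 + 3` or more rational values of the parameter,
then all but finitely many of its rational members have no atypical intersection with special
subvarieties. -/
theorem result (K : Subfield ℂ) [Countable K] (κ : Type) [Finite κ] (N n m M T : ℕ)
    (G : κ → MvPolynomial (Fin (N + 1)) (Polynomial K)) (hG : ∀ k, ∃ e, (G k).IsHomogeneous e)
    (A B : Fin n → MvPolynomial (Fin (N + 1)) (Polynomial K)) (d : Fin n → ℕ)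
    (hA : ∀ i, (A i).IsHomogeneous (d i)) (hB : ∀ i, (B i).IsHomogeneous (d i))
    (R : Fin n → Polynomial (Polynomial K)) (hR : ∀ i, (R i).Monic)
    (hT : ∀ i u w, ((R i).coeff u).coeff w ≠ 0 → u ≤ T ∧ w ≤ T)
    (c : Fin n → Polynomial K) (α : Fin M → ℚ) (hα : Function.Injective α)
    (hM : n.choose 2 + 3 ≤ M)
    (hind : IndependentExponents T fun l i => (c i).rootMultiplicity ((α l : ℚ) : K))
    (hpos : ∀ l, InGeneralPosition (α l) m G A B) (Γ : Finset ℂ) (hΓ : ∀ γ ∈ Γ, γ ∈ K) :
    {t : ℚ | ¬ NoAtypical (algebraMap (Algebra.adjoin ℤ (Γ : Set ℂ)) ℂ) K m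
      (scaledImage t G A B R c)}.Finite := by
  classical
  let k := algebraicClosure K ℂ
  have hcl : IsAlgClosure K k := inferInstance
  have hac : IsAlgClosed k := hcl.isAlgClosed
  let φ : Polynomial K →+* Polynomial k := Polynomial.mapRingHom (algebraMap K k)
  have hcastK : ∀ t : ℚ, ((((t : ℚ) : K) : ℂ)) = (t : ℂ) := fun t => by norm_cast
  have hcastk : ∀ t : ℚ, algebraMap k ℂ ((t : ℚ) : k) = (t : ℂ) := fun t => map_ratCast _ t
  have hev : ∀ (t : ℚ), (algebraMap k ℂ).comp ((Polynomial.evalRingHom ((t : ℚ) : k)).comp φ) =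
      evalAt K t := by
    intro t
    refine Polynomial.ringHom_ext (fun a => ?_) ?_
    · simp only [φ, evalAt, RingHom.comp_apply, Polynomial.coe_mapRingHom, Polynomial.map_C,
        Polynomial.coe_evalRingHom, Polynomial.eval_C, AlgHom.toRingHom_eq_coe, RingHom.coe_coe,
        Polynomial.aeval_C]
      rfl
    · simp only [φ, evalAt, RingHom.comp_apply, Polynomial.coe_mapRingHom, Polynomial.map_X,
        Polynomial.coe_evalRingHom, Polynomial.eval_X, AlgHom.toRingHom_eq_coe, RingHom.coe_coe,
        Polynomial.aeval_X, hcastk]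
  have hspec : ∀ (t : ℚ) (P : MvPolynomial (Fin (N + 1)) (Polynomial K)) (y : Fin (N + 1) → ℂ),
      aeval y (TH526.ZL.spec ((t : ℚ) : k) (MvPolynomial.map φ P)) = eval₂ (evalAt K t) y P := by
    intro t P y
    rw [TH526.ZL.spec, MvPolynomial.map_map, aeval_def, eval₂_map, hev]
  have hmult : ∀ (l : Fin M) (i : Fin n), (φ (c i)).rootMultiplicity ((α l : ℚ) : k) =
      (c i).rootMultiplicity ((α l : ℚ) : K) := by
    intro l i
    have h1 := Polynomial.eq_rootMultiplicity_map (p := c i) (f := algebraMap K k)
      (algebraMap K k).injective ((α l : ℚ) : K)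
    rw [map_ratCast] at h1
    exact h1.symm
  let Γ' : Set k := (fun γ : Γ => algebraMap K k ⟨γ, hΓ γ γ.2⟩) '' Set.univ
  have hΓ' : algebraMap k ℂ '' Γ' = (Γ : Set ℂ) := by
    ext z
    constructor
    · rintro ⟨_, ⟨g, -, rfl⟩, rfl⟩
      exact g.2
    · intro hz
      exact ⟨_, ⟨⟨z, hz⟩, trivial, rfl⟩, rfl⟩
  obtain ⟨D, hD⟩ := TH526.ZL.familyK (k := k) (m := m) (M := M) (T := T)
    (fun i => MvPolynomial.map φ (G i))
    (fun i => by
      obtain ⟨e, he⟩ := hG i
      exact ⟨e, he.map _⟩)
    (fun i => MvPolynomial.map φ (A i)) (fun i => MvPolynomial.map φ (B i)) d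
    (fun i => (hA i).map _) (fun i => (hB i).map _)
    (fun i => (R i).map φ) (fun i => (hR i).map _)
    (by
      intro i u w h0
      rw [Polynomial.coeff_map] at h0
      change ((Polynomial.mapRingHom (algebraMap K k)) ((R i).coeff u)).coeff w ≠ 0 at h0
      rw [Polynomial.coe_mapRingHom, Polynomial.coeff_map] at h0
      exact hT i u w fun h1 => h0 (by rw [h1, map_zero]))
    (fun i => φ (c i)) α
    (by
      refine ⟨fun l i => ?_, fun l l' hll i j hij q hq hqT => ?_⟩
      · show 0 < (φ (c i)).rootMultiplicity ((α l : ℚ) : k)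
        rw [hmult]
        exact hind.1 l i
      · show ¬ IsSquare (q * ((φ (c i)).rootMultiplicity ((α l : ℚ) : k) *
          (φ (c j)).rootMultiplicity ((α l : ℚ) : k) *
          ((φ (c i)).rootMultiplicity ((α l' : ℚ) : k) *
          (φ (c j)).rootMultiplicity ((α l' : ℚ) : k))))
        rw [hmult, hmult, hmult, hmult]
        exact hind.2 l l' hll i j hij q hq hqT)
    (fun l I hI y h1 h2 => by
      by_contra h0
      obtain ⟨i, hi, h3⟩ := hpos l I hI y ⟨h0, fun i => by rw [← hspec]; exact h1 i⟩
      apply h3
      rw [← hspec, ← hspec]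
      exact h2 i hi)
    Γ' (Set.toFinite _)
  refine (TH526.ZL.finite_bad D (L := n.choose 2 + 1) (M := M) (by omega) α hα).subset ?_
  intro t ht
  rw [Set.mem_ofPred_eq] at ht ⊢
  intro hex
  obtain ⟨f, hf, hp⟩ := hex
  apply ht
  intro r Z
  have hN : ∀ i i', 0 < ((Z.mat i).det * (Z.mat i').det).toNat := by
    intro i i'
    have := mul_pos (Z.det_pos i) (Z.det_pos i')
    omega
  have hpt : ∀ x ∈ scaledImage t G A B R c ∩ Z.locus, ∀ S : Finset (Fin n),
      AlgebraicIndependent K (fun i : S => x i) → S.card + n ≤ r + m := by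
    rintro x ⟨⟨y, hy, s, hxy⟩, hxZ⟩ S hS
    obtain ⟨z, hz⟩ := hxZ
    refine hD t f hf hp r Z.cls (fun i i' => ((Z.mat i).det * (Z.mat i').det).toNat) x s hN
      ?_ ?_ ?_ y hy.1 (fun i => (hspec t _ y).trans (hy.2 i)) ?_ S (hS.extendScalars k)
    · intro i hi
      rw [hΓ', (hz i).1 hi]
      rcases Z.allowed i with ⟨τ, hτ, hc⟩ | h
      · rw [hc]
        exact (singular_modulus_integral τ hτ).tower_top
      · exact h
    · intro i j l hi hj
      obtain ⟨w, hw, hxw⟩ := (hz i).2 l hi
      obtain ⟨w', hw', hxw'⟩ := (hz j).2 l hj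
      refine ⟨?_, ?_⟩
      · obtain ⟨a, b, c, d, e1, e2⟩ := isogeny_rel (Z.det_pos i) hw hw'
        rw [hxw, hxw']
        exact isogenous_integral w w' a b c d (by
          rw [e1]
          exact mul_pos (Z.det_pos i) (Z.det_pos j)) e2
      · rw [← eval_relPoly]
        exact eval_relPoly_eq_zero (Z.det_pos i) (Z.det_pos j) hw hw' hxw hxw'
    · intro i
      rw [Polynomial.eval₂_map]
      have h1 : ((Polynomial.aeval (x i) : Polynomial k →ₐ[k] ℂ).toRingHom).comp φ =
          (Polynomial.aeval (x i) : Polynomial K →ₐ[K] ℂ).toRingHom := by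
        ext z
        · simp [φ]
        · simp [φ]
      rw [h1]
      exact (hxy i).1
    · intro i
      rw [hspec, hspec]
      have h1 : algebraMap k ℂ ((φ (c i)).eval ((t : ℚ) : k)) = evalAt K t (c i) := by
        rw [← hev t]
        rfl
      rw [h1]
      exact (hxy i).2
  refine ⟨?_, hpt⟩
  intro W hW hcl' hprime
  obtain ⟨x, hxW, T', hT', hdim⟩ := Pool.Agent.W466.ZC.generic_dim K W hprime hcl'
  have h2 := hpt x (hW hxW) T' hT'
  calc zdim W + (n : Cardinal) ≤ (T'.card : Cardinal) + (n : Cardinal) := by gcongr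
    _ = ((T'.card + n : ℕ) : Cardinal) := by push_cast; rfl
    _ ≤ ((r + m : ℕ) : Cardinal) := by exact_mod_cast h2
    _ = (r : Cardinal) + (m : Cardinal) := by push_cast; rfl

end Pool.Agent.Results.MP_d83ecd_ag.RationalParameters
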